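import Mathlib

/-!
General position sets of graphs and the lower general position number.
-/

set_option autoImplicit false

namespace Pool.Agent.R709.GP

variable {V : Type*}

/-- The vertices `x`, `y`, `z` lie on a common shortest path (geodesic) of `G`: there is a walk `p`
from some vertex `u` to some vertex `v`, of length `G.dist u v`, which contains `x`, `y` and `z`. -/
def OnGeodesic (G : SimpleGraph V) (x y z : V) : Prop :=
  ∃ (u v : V) (p : G.Walk u v), p.length = G.dist u v ∧ x ∈ p.support ∧ y ∈ p.support ∧
    z ∈ p.support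

/-- `S` is a general position set: no three (distinct) vertices of `S` lie on a common shortest
path of `G`. -/
def IsGP (G : SimpleGraph V) (S : Finset V) : Prop :=
  ∀ x ∈ S, ∀ y ∈ S, ∀ z ∈ S, x ≠ y → y ≠ z → x ≠ z → ¬ OnGeodesic G x y z

/-- `S` is a maximal general position set: it is not properly contained in another general position
set. -/
def IsMaxGP (G : SimpleGraph V) (S : Finset V) : Prop :=
  IsGP G S ∧ ∀ T : Finset V, IsGP G T → ¬ S ⊂ T

/-- The lower general position number: the minimum cardinality of a maximal general position set. -/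
noncomputable def lowerGP (G : SimpleGraph V) : ℕ :=
  sInf {k | ∃ S : Finset V, IsMaxGP G S ∧ S.card = k}

/-! ### Distances -/

/-- `y` is between `x` and `z`, or `x` between `y` and `z`, or `z` between `x` and `y` -/
def Col (d : V → V → ℕ) (x y z : V) : Prop :=
  d x y + d y z = d x z ∨ d y x + d x z = d y z ∨ d x z + d z y = d x y

theorem dist_getVert {G : SimpleGraph V} (hG : G.Connected) {u v : V} (p : G.Walk u v)
    (hp : p.length = G.dist u v) {i j : ℕ} (hij : i ≤ j) (hj : j ≤ p.length) :
    G.dist (p.getVert i) (p.getVert j) = j - i := by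
  have h1 : G.dist u (p.getVert i) ≤ i := by
    have := G.dist_le (p.take i)
    rw [SimpleGraph.Walk.take_length] at this
    omega
  have h2 : G.dist (p.getVert j) v ≤ p.length - j := by
    have := G.dist_le (p.drop j)
    rwa [SimpleGraph.Walk.drop_length] at this
  have h3 : G.dist (p.getVert i) (p.getVert j) ≤ j - i := by
    have h4 := G.dist_le ((p.drop i).take (j - i))
    rw [SimpleGraph.Walk.take_length, SimpleGraph.Walk.drop_getVert] at h4
    have : i + (j - i) = j := by omega
    rw [this] at h4
    omega
  have h4 : G.dist u v ≤ G.dist u (p.getVert i) + G.dist (p.getVert i) v := hG.dist_triangle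
  have h5 : G.dist (p.getVert i) v ≤ G.dist (p.getVert i) (p.getVert j) +
    G.dist (p.getVert j) v := hG.dist_triangle
  omega

theorem between_of_le {G : SimpleGraph V} (hG : G.Connected) {u v : V} (p : G.Walk u v)
    (hp : p.length = G.dist u v) {i j k : ℕ} (hij : i ≤ j) (hjk : j ≤ k) (hk : k ≤ p.length) :
    G.dist (p.getVert i) (p.getVert j) + G.dist (p.getVert j) (p.getVert k) =
      G.dist (p.getVert i) (p.getVert k) := by
  rw [dist_getVert hG p hp hij (by omega), dist_getVert hG p hp hjk hk,
    dist_getVert hG p hp (hij.trans hjk) hk]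
  omega

theorem onGeodesic_of_between {G : SimpleGraph V} (hG : G.Connected) {x y z : V}
    (h : G.dist x y + G.dist y z = G.dist x z) : OnGeodesic G x y z := by
  obtain ⟨p, hp⟩ := hG.exists_walk_length_eq_dist x y
  obtain ⟨q, hq⟩ := hG.exists_walk_length_eq_dist y z
  refine ⟨x, z, p.append q, ?_, ?_, ?_, ?_⟩
  · rw [SimpleGraph.Walk.length_append, hp, hq, h]
  · exact SimpleGraph.Walk.start_mem_support _
  · exact (SimpleGraph.Walk.mem_support_append_iff _ _).2 (Or.inl (SimpleGraph.Walk.end_mem_support _))
  · exact SimpleGraph.Walk.end_mem_support _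

theorem OnGeodesic.perm1 {G : SimpleGraph V} {x y z : V} (h : OnGeodesic G x y z) :
    OnGeodesic G y x z := by
  obtain ⟨u, v, p, hp, h1, h2, h3⟩ := h
  exact ⟨u, v, p, hp, h2, h1, h3⟩

theorem OnGeodesic.perm2 {G : SimpleGraph V} {x y z : V} (h : OnGeodesic G x y z) :
    OnGeodesic G x z y := by
  obtain ⟨u, v, p, hp, h1, h2, h3⟩ := h
  exact ⟨u, v, p, hp, h1, h3, h2⟩

theorem onGeodesic_iff {G : SimpleGraph V} (hG : G.Connected) {x y z : V} :
    OnGeodesic G x y z ↔ Col G.dist x y z := by
  constructor
  · rintro ⟨u, v, p, hp, h1, h2, h3⟩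
    obtain ⟨i, rfl, hi⟩ := SimpleGraph.Walk.mem_support_iff_exists_getVert.1 h1
    obtain ⟨j, rfl, hj⟩ := SimpleGraph.Walk.mem_support_iff_exists_getVert.1 h2
    obtain ⟨k, rfl, hk⟩ := SimpleGraph.Walk.mem_support_iff_exists_getVert.1 h3
    have key : ∀ a b c : ℕ, a ≤ b → b ≤ c → c ≤ p.length →
        G.dist (p.getVert a) (p.getVert b) + G.dist (p.getVert b) (p.getVert c) =
        G.dist (p.getVert a) (p.getVert c) := fun a b c h1 h2 h3 =>
      between_of_le hG p hp h1 h2 h3
    unfold Col
    rcases le_total i j with hij | hij <;> rcases le_total j k with hjk | hjk <;>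
      rcases le_total i k with hik | hik
    · exact Or.inl (key i j k hij hjk hk)
    · exact Or.inl (key i j k hij hjk hk)
    · exact Or.inr (Or.inr (key i k j hik hjk hj))
    · right; left
      have := key k i j hik hij hj
      rw [G.dist_comm (u := p.getVert j) (v := p.getVert i),
        G.dist_comm (u := p.getVert j) (v := p.getVert k),
        G.dist_comm (u := p.getVert i) (v := p.getVert k)]
      omega
    · exact Or.inr (Or.inl (key j i k hij hik hk))
    · right; right
      have := key j k i hjk hik hi
      rw [G.dist_comm (u := p.getVert i) (v := p.getVert j),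
        G.dist_comm (u := p.getVert k) (v := p.getVert j),
        G.dist_comm (u := p.getVert i) (v := p.getVert k)]
      omega
    · left
      have := key k j i hjk hij hi
      rw [G.dist_comm (u := p.getVert i) (v := p.getVert j),
        G.dist_comm (u := p.getVert j) (v := p.getVert k),
        G.dist_comm (u := p.getVert i) (v := p.getVert k)]
      omega
    · left
      have := key k j i hjk hij hi
      rw [G.dist_comm (u := p.getVert i) (v := p.getVert j),
        G.dist_comm (u := p.getVert j) (v := p.getVert k),
        G.dist_comm (u := p.getVert i) (v := p.getVert k)]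
      omega
  · rintro (h | h | h)
    · exact onGeodesic_of_between hG h
    · exact (onGeodesic_of_between hG h).perm1
    · exact (onGeodesic_of_between hG h).perm2

/-- a criterion for a function to be the distance of a graph -/
theorem dist_eq_of {G : SimpleGraph V} [Nonempty V] (d : V → V → ℕ) (h0 : ∀ x, d x x = 0)
    (h1 : ∀ x y z, G.Adj x y → d x z ≤ d y z + 1)
    (h2 : ∀ x z, x ≠ z → ∃ y, G.Adj x y ∧ d y z + 1 = d x z) :
    G.Connected ∧ ∀ x z, G.dist x z = d x z := by
  have hle : ∀ x z, ∀ p : G.Walk x z, d x z ≤ p.length := by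
    intro x z p
    induction p with
    | nil => rw [h0]; exact Nat.zero_le _
    | cons h p ih =>
      rw [SimpleGraph.Walk.length_cons]
      exact (h1 _ _ _ h).trans (Nat.add_le_add_right ih 1)
  have hex : ∀ n, ∀ x z, d x z = n → ∃ p : G.Walk x z, p.length = n := by
    intro n
    induction n with
    | zero =>
      intro x z h
      by_cases hxz : x = z
      · subst hxz
        exact ⟨SimpleGraph.Walk.nil, rfl⟩
      · obtain ⟨y, -, hy⟩ := h2 x z hxz
        omega
    | succ n ih =>
      intro x z h
      have hxz : x ≠ z := by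
        rintro rfl
        rw [h0] at h
        omega
      obtain ⟨y, hxy, hy⟩ := h2 x z hxz
      obtain ⟨p, hp⟩ := ih y z (by omega)
      exact ⟨SimpleGraph.Walk.cons hxy p, by rw [SimpleGraph.Walk.length_cons, hp]⟩
  have hconn : G.Connected := by
    refine ⟨fun x z => ?_⟩
    obtain ⟨p, -⟩ := hex _ x z rfl
    exact ⟨p⟩
  refine ⟨hconn, fun x z => ?_⟩
  obtain ⟨p, hp⟩ := hex _ x z rfl
  obtain ⟨q, hq⟩ := hconn.exists_walk_length_eq_dist x z
  apply le_antisymm
  · rw [← hp]
    exact G.dist_le p
  · rw [← hq]
    exact hle x z q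

theorem dist_boxProd {W : Type*} {G : SimpleGraph V} {H : SimpleGraph W} (hG : G.Connected)
    (hH : H.Connected) (x y : V × W) :
    (G □ H).dist x y = G.dist x.1 y.1 + H.dist x.2 y.2 := by
  have h1 := G.edist_boxProd (H := H) x y
  have h2 : (G □ H).Reachable x y := (hG.boxProd hH).preconnected x y
  rw [← h2.coe_dist_eq_edist, ← (hG.preconnected x.1 y.1).coe_dist_eq_edist,
    ← (hH.preconnected x.2 y.2).coe_dist_eq_edist] at h1
  exact_mod_cast h1

end Pool.Agent.R709.GP
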