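import Pool.Agent.R709.GP.Defs

/-!
The counterexample.
-/

set_option autoImplicit false

namespace Pool.Agent.R709.GP

section general
variable {V : Type*} {G : SimpleGraph V}

theorem isGP_iff (hG : G.Connected) {S : Finset V} : IsGP G S ↔
    ∀ x ∈ S, ∀ y ∈ S, ∀ z ∈ S, x ≠ y → y ≠ z → x ≠ z → ¬ Col G.dist x y z := by
  unfold IsGP
  simp only [onGeodesic_iff hG]

theorem isGP_empty : IsGP G (∅ : Finset V) := by
  intro x hx
  exact absurd hx (Finset.notMem_empty x)

/-- lower bounds for the lower general position number -/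
theorem le_lowerGP [Fintype V] {N : ℕ} (h : ∀ S : Finset V, IsMaxGP G S → N ≤ S.card) :
    N ≤ lowerGP G := by
  classical
  have hne : ∃ S : Finset V, IsMaxGP G S := by
    obtain ⟨S, hS⟩ := (Set.toFinite {S : Finset V | IsGP G S}).exists_maximal ⟨∅, isGP_empty⟩
    refine ⟨S, hS.prop, fun T hT hST => ?_⟩
    exact hST.2 (hS.le_of_ge hT hST.1)
  obtain ⟨S, hS⟩ := hne
  refine le_csInf ⟨S.card, S, hS, rfl⟩ ?_
  rintro k ⟨T, hT, rfl⟩
  exact h T hT

theorem lowerGP_le {S : Finset V} (h : IsMaxGP G S) : lowerGP G ≤ S.card :=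
  Nat.sInf_le ⟨S, h, rfl⟩

end general

/-! ### Complete graphs -/

theorem top_connected (r : ℕ) [NeZero r] : (⊤ : SimpleGraph (Fin r)).Connected :=
  SimpleGraph.connected_top

theorem isGP_top (r : ℕ) [NeZero r] : IsGP (⊤ : SimpleGraph (Fin r)) Finset.univ := by
  rw [isGP_iff (top_connected r)]
  intro x _ y _ z _ hxy hyz hxz
  unfold Col
  rw [SimpleGraph.dist_top_of_ne hxy, SimpleGraph.dist_top_of_ne hyz,
    SimpleGraph.dist_top_of_ne hxz, SimpleGraph.dist_top_of_ne hxy.symm,
    SimpleGraph.dist_top_of_ne hyz.symm]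
  omega

theorem lowerGP_top_le (r : ℕ) [NeZero r] : lowerGP (⊤ : SimpleGraph (Fin r)) ≤ r := by
  have h : IsMaxGP (⊤ : SimpleGraph (Fin r)) Finset.univ :=
    ⟨isGP_top r, fun T _ hT => hT.2 (Finset.subset_univ T)⟩
  have h1 := lowerGP_le h
  rwa [Finset.card_univ, Fintype.card_fin] at h1

theorem lowerGP_top (r : ℕ) [NeZero r] : r ≤ lowerGP (⊤ : SimpleGraph (Fin r)) := by
  classical
  refine le_lowerGP fun S hS => ?_
  have huniv := isGP_top r
  have h1 := hS.2 Finset.univ huniv
  have h2 : S = Finset.univ := by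
    by_contra hne
    exact h1 ((Finset.subset_univ S).ssubset_of_ne hne)
  rw [h2, Finset.card_univ, Fintype.card_fin]

/-! ### The base graph -/

/-- the distances of the base graph, with `1` on the diagonal -/
def d₁ : Fin 9 → Fin 9 → ℕ := ![
  ![1, 1, 1, 1, 1, 2, 2, 2, 2],
  ![1, 1, 1, 1, 1, 2, 1, 2, 2],
  ![1, 1, 1, 2, 2, 1, 2, 3, 2],
  ![1, 1, 2, 1, 2, 3, 1, 2, 3],
  ![1, 1, 2, 2, 1, 2, 2, 1, 1],
  ![2, 2, 1, 3, 2, 1, 3, 3, 1],
  ![2, 1, 2, 1, 2, 3, 1, 1, 3],
  ![2, 2, 3, 2, 1, 3, 1, 1, 2],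
  ![2, 2, 2, 3, 1, 1, 3, 2, 1]]

theorem d₁_comm : ∀ a b, d₁ a b = d₁ b a := by decide

theorem d₁_pos : ∀ a b, 1 ≤ d₁ a b := by decide

theorem d₁_tri : ∀ a b c, d₁ a b = 1 → d₁ a c ≤ d₁ b c + 1 := by decide

theorem d₁_step : ∀ a c, d₁ a c ≠ 1 → ∃ b, b ≠ c ∧ d₁ a b = 1 ∧ d₁ b c + 1 = d₁ a c := by decide

theorem d₁_self : ∀ a, d₁ a a = 1 := by decide

/-- collinearity in the base graph -/
def Col₁ (a b c : Fin 9) : Prop :=
  d₁ a b + d₁ b c = d₁ a c ∨ d₁ b a + d₁ a c = d₁ b c ∨ d₁ a c + d₁ c b = d₁ a b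

instance (a b c : Fin 9) : Decidable (Col₁ a b c) := by
  unfold Col₁
  infer_instance

/-- the vertices: five single ones and four classes of `m` vertices -/
abbrev Vert (m : ℕ) : Type := Fin 5 ⊕ Fin 4 × Fin m

/-- the base vertex of a vertex -/
def base {m : ℕ} : Vert m → Fin 9
  | Sum.inl a => Fin.castLE (by norm_num) a
  | Sum.inr p => Fin.natAdd 5 p.1

/-- the graph -/
def H (m : ℕ) : SimpleGraph (Vert m) where
  Adj x y := x ≠ y ∧ d₁ (base x) (base y) = 1
  symm := ⟨fun x y h => ⟨h.1.symm, by rw [d₁_comm]; exact h.2⟩⟩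
  loopless := ⟨fun x h => h.1 rfl⟩

/-- the distance function of the graph -/
def dH {m : ℕ} (x y : Vert m) : ℕ := if x = y then 0 else d₁ (base x) (base y)

theorem base_surj {m : ℕ} [NeZero m] (b : Fin 9) : ∃ y : Vert m, base y = b := by
  by_cases h : (b : ℕ) < 5
  · exact ⟨Sum.inl ⟨b, h⟩, rfl⟩
  · refine ⟨Sum.inr (⟨b - 5, by omega⟩, 0), ?_⟩
    apply Fin.ext
    show 5 + ((b : ℕ) - 5) = b
    omega

theorem H_dist (m : ℕ) [NeZero m] : (H m).Connected ∧ ∀ x z, (H m).dist x z = dH x z := by
  refine dist_eq_of dH (fun x => if_pos rfl) ?_ ?_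
  · intro x y z hxy
    unfold dH
    by_cases hxz : x = z
    · rw [if_pos hxz]
      exact Nat.zero_le _
    · rw [if_neg hxz]
      by_cases hyz : y = z
      · subst hyz
        rw [if_pos rfl, hxy.2]
      · rw [if_neg hyz]
        exact d₁_tri _ _ _ hxy.2
  · intro x z hxz
    by_cases h1 : d₁ (base x) (base z) = 1
    · refine ⟨z, ⟨hxz, h1⟩, ?_⟩
      unfold dH
      rw [if_pos rfl, if_neg hxz, h1]
    · obtain ⟨b, hb1, hb2, hb3⟩ := d₁_step _ _ h1
      obtain ⟨y, rfl⟩ := base_surj (m := m) b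
      have hyz : y ≠ z := by
        rintro rfl
        exact hb1 rfl
      have hxy : x ≠ y := by
        rintro rfl
        omega
      refine ⟨y, ⟨hxy, hb2⟩, ?_⟩
      unfold dH
      rw [if_neg hyz, if_neg hxz, hb3]

theorem H_connected (m : ℕ) [NeZero m] : (H m).Connected := (H_dist m).1

theorem col_H {m : ℕ} [NeZero m] {x y z : Vert m} (hxy : x ≠ y) (hyz : y ≠ z) (hxz : x ≠ z) :
    Col (H m).dist x y z ↔ Col₁ (base x) (base y) (base z) := by
  unfold Col Col₁
  simp only [(H_dist m).2, dH, if_neg hxy, if_neg hyz, if_neg hxz, if_neg hxy.symm,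
    if_neg hyz.symm]

/-! ### Maximal general position sets of the graph -/

/-- the single vertices as base vertices -/
def cs (a : Fin 5) : Fin 9 := Fin.castLE (by norm_num) a

theorem cs_inj : Function.Injective cs := Fin.castLE_injective (by norm_num)

/-- the general position subsets of the single vertices -/
def Inner (T : Fin 5 → Bool) : Prop :=
  ∀ a b c : Fin 5, T a = true → T b = true → T c = true → a ≠ b → b ≠ c → a ≠ c →
      ¬ Col₁ (cs a) (cs b) (cs c)

instance (T : Fin 5 → Bool) : Decidable (Inner T) := by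
  unfold Inner
  infer_instance

/-- the vertices by which they can be extended -/
def Outer (T : Fin 5 → Bool) (v : Fin 9) : Prop :=
  (∀ a : Fin 5, T a = true → cs a ≠ v) ∧
      ∀ a b : Fin 5, T a = true → T b = true → a ≠ b → ¬ Col₁ (cs a) (cs b) v

instance (T : Fin 5 → Bool) (v : Fin 9) : Decidable (Outer T v) := by
  unfold Outer
  infer_instance

/-- the general position subsets of the single vertices can be extended -/
theorem ext_inside : ∀ T : Fin 5 → Bool, Inner T → ∃ v : Fin 9, Outer T v := by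
  decide +kernel

theorem col_swap {V : Type*} {G : SimpleGraph V} {x y z : V} (h : Col G.dist x y z) :
    Col G.dist y x z := by
  unfold Col at *
  rw [G.dist_comm (u := y) (v := x), G.dist_comm (u := z) (v := x)]
  rw [G.dist_comm (u := y) (v := x), G.dist_comm (u := z) (v := y)] at h
  omega

theorem col_swap' {V : Type*} {G : SimpleGraph V} {x y z : V} (h : Col G.dist x y z) :
    Col G.dist x z y := by
  unfold Col at *
  rw [G.dist_comm (u := y) (v := x), G.dist_comm (u := z) (v := y)] at h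
  rw [G.dist_comm (u := z) (v := x)]
  rw [G.dist_comm (u := z) (v := y)]
  omega

/-- adding a vertex to a general position set -/
theorem isGP_insert {V : Type*} [DecidableEq V] {G : SimpleGraph V} (hG : G.Connected)
    {S : Finset V} (hS : IsGP G S) {w : V}
    (hw : ∀ x ∈ S, ∀ y ∈ S, x ≠ y → x ≠ w → y ≠ w → ¬ Col G.dist x y w) : IsGP G (insert w S) := by
  rw [isGP_iff hG] at hS ⊢
  intro x hx y hy z hz hxy hyz hxz
  rw [Finset.mem_insert] at hx hy hz
  rcases hx with rfl | hx
  · rcases hy with rfl | hy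
    · exact absurd rfl hxy
    · rcases hz with rfl | hz
      · exact absurd rfl hxz
      · intro h
        exact hw y hy z hz hyz hxy.symm hxz.symm (col_swap' (col_swap h))
  · rcases hy with rfl | hy
    · rcases hz with rfl | hz
      · exact absurd rfl hyz
      · intro h
        exact hw x hx z hz hxz hxy hyz.symm (col_swap' h)
    · rcases hz with rfl | hz
      · intro h
        exact hw x hx y hy hxy hxz hyz h
      · exact hS x hx y hy z hz hxy hyz hxz

/-- a maximal general position set contains each vertex which can be added -/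
theorem IsMaxGP.mem {V : Type*} [DecidableEq V] {G : SimpleGraph V} (hG : G.Connected)
    {S : Finset V} (hS : IsMaxGP G S) {w : V}
    (hw : ∀ x ∈ S, ∀ y ∈ S, x ≠ y → x ≠ w → y ≠ w → ¬ Col G.dist x y w) : w ∈ S := by
  by_contra hcon
  exact hS.2 _ (isGP_insert hG hS.1 hw) (Finset.ssubset_insert hcon)

/-- a maximal general position set contains all twins of its vertices -/
theorem twin_mem {m : ℕ} [NeZero m] {S : Finset (Vert m)} (hS : IsMaxGP (H m) S) {x x' : Vert m}
    (hx : x ∈ S) (hxx' : base x = base x') : x' ∈ S := by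
  classical
  by_contra hcon
  have hne : x ≠ x' := fun h => hcon (h ▸ hx)
  apply hcon
  refine hS.mem (H_connected m) fun y hy z hz hyz hy' hz' h => ?_
  rw [col_H hyz hz' hy'] at h
  rw [← hxx'] at h
  by_cases h1 : y = x
  · subst h1
    have h2 := d₁_self (base y)
    have h3 := d₁_pos (base y) (base z)
    have h4 := d₁_pos (base z) (base y)
    have h5 := d₁_comm (base y) (base z)
    unfold Col₁ at h
    omega
  · by_cases h2 : z = x
    · subst h2
      have h2 := d₁_self (base z)
      have h3 := d₁_pos (base y) (base z)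
      have h4 := d₁_pos (base z) (base y)
      have h5 := d₁_comm (base y) (base z)
      unfold Col₁ at h
      omega
    · exact (isGP_iff (H_connected m)).1 hS.1 y hy z hz x hx hyz h2 h1
        ((col_H hyz h2 h1).2 h)

theorem card_of_maxGP {m : ℕ} [NeZero m] {S : Finset (Vert m)} (hS : IsMaxGP (H m) S) :
    m ≤ S.card := by
  classical
  by_cases h : ∃ p : Fin 4 × Fin m, Sum.inr p ∈ S
  · obtain ⟨p, hp⟩ := h
    have h1 : (Finset.univ : Finset (Fin m)).image (fun j => (Sum.inr (p.1, j) : Vert m)) ⊆ S := by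
      intro x hx
      obtain ⟨j, -, rfl⟩ := Finset.mem_image.1 hx
      exact twin_mem hS hp rfl
    have h2 := Finset.card_le_card h1
    rwa [Finset.card_image_of_injective _ (by
      intro i j hij
      have := Sum.inr_injective hij
      exact (Prod.mk.inj this).2), Finset.card_univ, Fintype.card_fin] at h2
  · exfalso
    push Not at h
    have hin : ∀ x ∈ S, ∃ a : Fin 5, x = Sum.inl a := by
      rintro (a | p) hx
      · exact ⟨a, rfl⟩
      · exact absurd hx (h p)
    have hGP := (isGP_iff (H_connected m)).1 hS.1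
    obtain ⟨v, hv1, hv2⟩ := ext_inside (fun a => decide ((Sum.inl a : Vert m) ∈ S)) (by
      intro a b c ha hb hc hab hbc hac hcol
      have ha' : (Sum.inl a : Vert m) ∈ S := of_decide_eq_true ha
      have hb' : (Sum.inl b : Vert m) ∈ S := of_decide_eq_true hb
      have hc' : (Sum.inl c : Vert m) ∈ S := of_decide_eq_true hc
      have hab' : (Sum.inl a : Vert m) ≠ Sum.inl b := fun h => hab (Sum.inl_injective h)
      have hbc' : (Sum.inl b : Vert m) ≠ Sum.inl c := fun h => hbc (Sum.inl_injective h)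
      have hac' : (Sum.inl a : Vert m) ≠ Sum.inl c := fun h => hac (Sum.inl_injective h)
      exact hGP _ ha' _ hb' _ hc' hab' hbc' hac' ((col_H hab' hbc' hac').2 hcol))
    obtain ⟨w, rfl⟩ := base_surj (m := m) v
    have hwS : w ∈ S := by
      refine hS.mem (H_connected m) fun x hx y hy hxy hxw hyw hcol => ?_
      obtain ⟨a, rfl⟩ := hin x hx
      obtain ⟨b, rfl⟩ := hin y hy
      refine hv2 a b (decide_eq_true hx) (decide_eq_true hy) (fun h => hxy (by rw [h])) ?_
      exact (col_H hxy hyw hxw).1 hcol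
    obtain ⟨a, rfl⟩ := hin w hwS
    exact hv1 a (decide_eq_true hwS) rfl

theorem lowerGP_H (m : ℕ) [NeZero m] : m ≤ lowerGP (H m) :=
  le_lowerGP fun _ hS => card_of_maxGP hS

/-! ### The product -/

/-- the fibre over which a single vertex is placed -/
def fib (r : ℕ) [NeZero r] (a : Fin 5) : Fin r := if a < 2 then Fin.ofNat r 0 else Fin.ofNat r 1

/-- the five vertices -/
def pt (r m : ℕ) [NeZero r] (a : Fin 5) : Fin r × Vert m := (fib r a, Sum.inl a)

theorem pt_inj {r m : ℕ} [NeZero r] : Function.Injective (pt r m) := by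
  intro a b h
  exact Sum.inl_injective (Prod.mk.inj h).2

theorem dist_prod {r m : ℕ} [NeZero r] [NeZero m] (x y : Fin r × Vert m) :
    ((⊤ : SimpleGraph (Fin r)) □ H m).dist x y = (if x.1 = y.1 then 0 else 1) + dH x.2 y.2 := by
  rw [dist_boxProd (top_connected r) (H_connected m), (H_dist m).2]
  congr 1
  split_ifs with h
  · rw [h, SimpleGraph.dist_self]
  · exact SimpleGraph.dist_top_of_ne h

theorem fib_eq {r : ℕ} [NeZero r] (hr : 2 ≤ r) (a b : Fin 5) :
    fib r a = fib r b ↔ (a < 2 ↔ b < 2) := by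
  have h01 : (Fin.ofNat r 0) ≠ (Fin.ofNat r 1) := by
    intro h
    have := congrArg Fin.val h
    simp only [Fin.ofNat, Nat.zero_mod, Nat.mod_eq_of_lt (show 1 < r by omega)] at this
    omega
  unfold fib
  by_cases ha : a < 2 <;> by_cases hb : b < 2
  · simp only [ha, hb]
  · rw [if_pos ha, if_neg hb]
    exact ⟨fun h => absurd h h01, fun h => absurd (h.1 ha) hb⟩
  · rw [if_neg ha, if_pos hb]
    exact ⟨fun h => absurd h.symm h01, fun h => absurd (h.2 hb) ha⟩
  · simp only [ha, hb]

/-- distances between the five vertices -/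
def dP (a b : Fin 5) : ℕ :=
  (if (a < 2 ↔ b < 2) then 0 else 1) + if a = b then 0 else d₁ (cs a) (cs b)

theorem dist_pt {r m : ℕ} [NeZero r] [NeZero m] (hr : 2 ≤ r) (a b : Fin 5) :
    ((⊤ : SimpleGraph (Fin r)) □ H m).dist (pt r m a) (pt r m b) = dP a b := by
  rw [dist_prod]
  unfold dP
  congr 1
  · show (if fib r a = fib r b then 0 else 1) = _
    by_cases h : (a < 2 ↔ b < 2)
    · rw [if_pos h, if_pos ((fib_eq hr a b).2 h)]
    · rw [if_neg h, if_neg (fun h' => h ((fib_eq hr a b).1 h'))]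
  · show dH (Sum.inl a : Vert m) (Sum.inl b) = _
    unfold dH
    by_cases h : a = b
    · rw [if_pos h, if_pos (by rw [h])]
    · rw [if_neg h, if_neg (fun h' => h (Sum.inl_injective h'))]
      rfl

instance (a b c : Fin 5) : Decidable (Col dP a b c) := by
  unfold Col
  infer_instance

theorem not_col_dP : ∀ a b c : Fin 5, a ≠ b → b ≠ c → a ≠ c → ¬ Col dP a b c := by
  decide +kernel

/-- distance from a vertex to a single vertex -/
def dO (v : Fin 9) (a : Fin 5) : ℕ := if v = cs a then 0 else d₁ v (cs a)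

theorem dH_inl {m : ℕ} (h : Vert m) (a : Fin 5) : dH h (Sum.inl a) = dO (base h) a := by
  unfold dH dO
  rcases h with c | p
  · by_cases hca : c = a
    · subst hca
      rw [if_pos rfl]
      exact (if_pos rfl).symm
    · rw [if_neg (fun h => hca (Sum.inl_injective h))]
      exact (if_neg (fun h => hca (cs_inj h))).symm
  · rw [if_neg (fun h => by cases h), if_neg]
    · rfl
    · intro h
      have h1 := congrArg Fin.val h
      have h2 : 5 + (p.1 : ℕ) = (a : ℕ) := h1
      omega

theorem cover : ∀ v : Fin 9, ∃ a b : Fin 5, a ≠ b ∧ (a < 2 ↔ b < 2) ∧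
    dO v a + d₁ (cs a) (cs b) = dO v b := by
  decide +kernel

theorem isMaxGP_prod {r m : ℕ} [NeZero r] [NeZero m] (hr : 2 ≤ r) :
    IsMaxGP ((⊤ : SimpleGraph (Fin r)) □ H m) (Finset.univ.image (pt r m)) := by
  classical
  have hconn : ((⊤ : SimpleGraph (Fin r)) □ H m).Connected :=
    (top_connected r).boxProd (H_connected m)
  constructor
  · rw [isGP_iff hconn]
    intro x hx y hy z hz hxy hyz hxz
    obtain ⟨a, -, rfl⟩ := Finset.mem_image.1 hx
    obtain ⟨b, -, rfl⟩ := Finset.mem_image.1 hy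
    obtain ⟨c, -, rfl⟩ := Finset.mem_image.1 hz
    have h := not_col_dP a b c (fun h => hxy (by rw [h])) (fun h => hyz (by rw [h]))
      (fun h => hxz (by rw [h]))
    unfold Col at h ⊢
    simpa only [dist_pt hr] using h
  · intro T hT hST
    obtain ⟨t, htT, htS⟩ := Finset.exists_of_ssubset hST
    have hT' := (isGP_iff hconn).1 hT
    obtain ⟨a, b, hab, hside, hd⟩ := cover (base t.2)
    have ha : pt r m a ∈ T := hST.1 (Finset.mem_image_of_mem _ (Finset.mem_univ a))
    have hb : pt r m b ∈ T := hST.1 (Finset.mem_image_of_mem _ (Finset.mem_univ b))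
    have hta : t ≠ pt r m a := by
      rintro rfl
      exact htS (Finset.mem_image_of_mem _ (Finset.mem_univ a))
    have htb : t ≠ pt r m b := by
      rintro rfl
      exact htS (Finset.mem_image_of_mem _ (Finset.mem_univ b))
    refine hT' t htT _ ha _ hb hta (fun h => hab (pt_inj h)) htb (Or.inl ?_)
    have hfib : fib r a = fib r b := (fib_eq hr a b).2 hside
    rw [dist_pt hr, dist_prod, dist_prod]
    show (if t.1 = fib r a then 0 else 1) + dH t.2 (Sum.inl a) + dP a b =
      (if t.1 = fib r b then 0 else 1) + dH t.2 (Sum.inl b)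
    rw [dH_inl, dH_inl, hfib]
    unfold dP
    rw [if_pos hside, if_neg hab]
    omega

/-- the main theorem -/
theorem main (N : ℕ) : ∃ (W : Type) (_ : Fintype W) (H : SimpleGraph W), H.Connected ∧
    N ≤ lowerGP H ∧ ∀ r : ℕ, 2 ≤ r → lowerGP (⊤ : SimpleGraph (Fin r)) = r ∧
      lowerGP ((⊤ : SimpleGraph (Fin r)) □ H) ≤ 5 := by
  classical
  have h1 : NeZero (N + 1) := ⟨by omega⟩
  refine ⟨Vert (N + 1), inferInstance, H (N + 1), H_connected _,
    (Nat.le_add_right N 1).trans (lowerGP_H (N + 1)), fun r hr => ?_⟩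
  have h2 : NeZero r := ⟨by omega⟩
  refine ⟨le_antisymm (lowerGP_top_le r) (lowerGP_top r), ?_⟩
  refine (lowerGP_le (isMaxGP_prod (r := r) (m := N + 1) hr)).trans ?_
  exact Finset.card_image_le.trans (by rw [Finset.card_univ, Fintype.card_fin])

end Pool.Agent.R709.GP
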